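import Pool.Agent.Helper50.FE.Goals
import Mathlib.NumberTheory.SiegelsLemma

/-!
# Project FE, packet SIEG: Siegel's lemma, an admissible auxiliary polynomial exists
-/

set_option autoImplicit false

open Finset Pool.Agent.Helper50.FE

namespace Pool.Agent.Helper88.FE

attribute [local instance] Matrix.normedAddCommGroup

/-- outside the box all products vanish -/
theorem prod_choose_eq_zero {m : ℕ} (r a b : Fin m → ℕ) (ha : a ∈ box r) (hb : b ∉ box r) :
    ∏ i, (((a i).choose (b i) : ℕ) : ℤ) = 0 := by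
  have h1 : ∃ i, r i < b i := by
    by_contra hcon
    push Not at hcon
    exact hb (Fintype.mem_piFinset.2 fun i => Finset.mem_range.2 (Nat.lt_succ_of_le (hcon i)))
  obtain ⟨i, hi⟩ := h1
  refine Finset.prod_eq_zero (Finset.mem_univ i) ?_
  have h2 : a i < r i + 1 := Finset.mem_range.1 (Fintype.mem_piFinset.1 ha i)
  rw [Nat.choose_eq_zero_of_lt (by omega)]
  rfl

theorem card_box_le {m : ℕ} (r : Fin m → ℕ) : (box r).card ≤ 2 ^ (∑ i, r i) := by
  have h0 : (box r).card = ∏ i, (Finset.range (r i + 1)).card := Fintype.card_piFinset _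
  rw [h0, ← Finset.prod_pow_eq_pow_sum]
  refine Finset.prod_le_prod' fun i _ => ?_
  rw [Finset.card_range]
  exact Nat.lt_two_pow_self

theorem prod_choose_le {m : ℕ} (r a b : Fin m → ℕ) (ha : a ∈ box r) :
    ∏ i, (a i).choose (b i) ≤ 2 ^ (∑ i, r i) := by
  rw [← Finset.prod_pow_eq_pow_sum]
  refine Finset.prod_le_prod' fun i _ => ?_
  have h2 : a i < r i + 1 := Finset.mem_range.1 (Fintype.mem_piFinset.1 ha i)
  exact (Nat.choose_le_two_pow _ _).trans (Nat.pow_le_pow_right (by norm_num) (by omega))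

theorem goalSIEG (h : CHEB) : SIEG := by
  classical
  intro m r hr
  have hch := h m r hr
  set A : Finset (Fin m → ℕ) := (box r).filter (fun a => |wt r a - (m : ℝ) / 2| ≤ Real.sqrt m) with hA
  set B : Finset (Fin m → ℕ) := (box r).filter (fun a => wt r a < (m : ℝ) / 2 - Real.sqrt m) with hB
  set E : Finset (Fin m → ℕ) := (box r).filter (fun a => Real.sqrt m < |wt r a - (m : ℝ) / 2|) with hE
  have hAE : A.card + E.card = (box r).card := by
    have h1 := Finset.card_filter_add_card_filter_not (s := box r)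
      (fun a => |wt r a - (m : ℝ) / 2| ≤ Real.sqrt m)
    have h2 : (box r).filter (fun a => ¬ |wt r a - (m : ℝ) / 2| ≤ Real.sqrt m) = E := by
      rw [hE]
      refine Finset.filter_congr fun a _ => ?_
      rw [not_le]
    rw [h2] at h1
    exact h1
  have hBE : B ⊆ E := by
    intro b hb
    rw [hB, Finset.mem_filter] at hb
    rw [hE, Finset.mem_filter]
    refine ⟨hb.1, ?_⟩
    rw [abs_sub_comm]
    exact lt_of_lt_of_le (by linarith [hb.2]) (le_abs_self _)
  have hBEc := Finset.card_le_card hBE
  have hbox : 1 ≤ (box r).card := by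
    refine Finset.card_pos.2 ⟨0, ?_⟩
    exact Fintype.mem_piFinset.2 fun i => Finset.mem_range.2 (by simp)
  have hApos : 0 < A.card := by omega
  rcases Nat.eq_zero_or_pos B.card with hB0 | hBpos
  · obtain ⟨a0, ha0⟩ := Finset.card_pos.1 hApos
    rw [hA, Finset.mem_filter] at ha0
    refine ⟨fun a => if a = a0 then 1 else 0, ⟨a0, by simp⟩, ?_, ?_, ?_⟩
    · intro a ha
      have h1 : a = a0 := by
        by_contra hne
        exact ha (if_neg hne)
      rw [h1]
      exact ha0
    · intro a
      have h1 : (1 : ℤ) ≤ 4 ^ (∑ i, r i) := one_le_pow₀ (by norm_num)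
      show |(if a = a0 then (1 : ℤ) else 0)| ≤ _
      split_ifs
      · simpa using h1
      · simp
    · intro b hb
      have hbb : b ∉ box r := by
        intro hb2
        have h2 : b ∈ B := by
          rw [hB, Finset.mem_filter]
          exact ⟨hb2, hb⟩
        rw [Finset.card_eq_zero.1 hB0] at h2
        exact absurd h2 (Finset.notMem_empty _)
      refine Finset.sum_eq_zero fun a ha => ?_
      rw [prod_choose_eq_zero r a b ha hbb, mul_zero]
  · have hlt : B.card < A.card := by omega
    let MM : Matrix B A ℤ := fun b a => ∏ i, (((a.1 i).choose (b.1 i) : ℕ) : ℤ)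
    obtain ⟨t, ht0, ht1, ht2⟩ := Int.Matrix.exists_ne_zero_int_vec_norm_le MM
      (by rw [Fintype.card_coe, Fintype.card_coe]; exact hlt)
      (by rw [Fintype.card_coe]; exact hBpos)
    have hQ : (1 : ℝ) ≤ 2 ^ (∑ i, r i) := one_le_pow₀ (by norm_num)
    have hMM : ‖MM‖ ≤ 2 ^ (∑ i, r i) := by
      rw [Matrix.norm_le_iff (by positivity)]
      intro b a
      have h1 := prod_choose_le r a.1 b.1 (Finset.mem_filter.1 a.2).1
      have h2 : ‖MM b a‖ = ((∏ i, (a.1 i).choose (b.1 i) : ℕ) : ℝ) := by
        show ‖∏ i, (((a.1 i).choose (b.1 i) : ℕ) : ℤ)‖ = _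
        rw [← Nat.cast_prod, Int.norm_natCast]
      rw [h2]
      exact_mod_cast h1
    have hnorm : ‖t‖ ≤ 4 ^ (∑ i, r i) := by
      rw [Fintype.card_coe, Fintype.card_coe] at ht2
      have h1 : (1 : ℝ) ≤ (A.card : ℝ) * max 1 ‖MM‖ := by
        have h3 : (1 : ℝ) ≤ (A.card : ℝ) := by exact_mod_cast hApos
        calc (1 : ℝ) = 1 * 1 := by ring
          _ ≤ _ := mul_le_mul h3 (le_max_left _ _) zero_le_one (by positivity)
      have h2 : ((B.card : ℝ) / ((A.card : ℝ) - B.card)) ≤ 1 := by
        have h4 : (0 : ℝ) < (A.card : ℝ) - B.card := by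
          have : (B.card : ℝ) < A.card := by exact_mod_cast hlt
          linarith
        rw [div_le_one h4]
        have h5 : (2 * B.card : ℝ) ≤ A.card := by
          have : 2 * B.card ≤ A.card := by omega
          exact_mod_cast this
        linarith
      have h3 := Real.rpow_le_rpow_of_exponent_le h1 h2
      rw [Real.rpow_one] at h3
      refine ht2.trans (h3.trans ?_)
      have h6 : (A.card : ℝ) ≤ 2 ^ (∑ i, r i) := by
        have : A.card ≤ 2 ^ (∑ i, r i) := (Finset.card_filter_le _ _).trans (card_box_le r)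
        exact_mod_cast this
      calc (A.card : ℝ) * max 1 ‖MM‖ ≤ 2 ^ (∑ i, r i) * 2 ^ (∑ i, r i) :=
            mul_le_mul h6 (max_le hQ hMM) (by positivity) (by positivity)
        _ = 4 ^ (∑ i, r i) := by
            rw [← mul_pow]
            norm_num
    refine ⟨fun a => if ha : a ∈ A then t ⟨a, ha⟩ else 0, ?_, ?_, ?_, ?_⟩
    · obtain ⟨a, ha⟩ := Function.ne_iff.1 ht0
      refine ⟨a.1, ?_⟩
      show (if ha : a.1 ∈ A then t ⟨a.1, ha⟩ else 0) ≠ 0
      rw [dif_pos a.2]
      exact ha
    · intro a ha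
      have h1 : a ∈ A := by
        by_contra hne
        exact ha (dif_neg hne)
      rw [hA, Finset.mem_filter] at h1
      exact h1
    · intro a
      show |(if ha : a ∈ A then t ⟨a, ha⟩ else 0)| ≤ _
      split_ifs with ha
      · have h1 := (norm_le_pi_norm t ⟨a, ha⟩).trans hnorm
        rw [Int.norm_eq_abs] at h1
        exact_mod_cast h1
      · simp
    · intro b hb
      by_cases hbb : b ∈ box r
      · have hbB : b ∈ B := by
          rw [hB, Finset.mem_filter]
          exact ⟨hbb, hb⟩
        have h1 := congrFun ht1 ⟨b, hbB⟩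
        have h2 : ∑ a ∈ box r, (if ha : a ∈ A then t ⟨a, ha⟩ else 0) *
            ∏ i, (((a i).choose (b i) : ℕ) : ℤ) =
            ∑ a ∈ A, (if ha : a ∈ A then t ⟨a, ha⟩ else 0) *
            ∏ i, (((a i).choose (b i) : ℕ) : ℤ) := by
          symm
          refine Finset.sum_subset (Finset.filter_subset _ _) fun a _ ha => ?_
          rw [dif_neg ha, zero_mul]
        show ∑ a ∈ box r, (if ha : a ∈ A then t ⟨a, ha⟩ else 0) *
            ∏ i, (((a i).choose (b i) : ℕ) : ℤ) = 0
        rw [h2, ← Finset.sum_coe_sort]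
        have h3 : (MM.mulVec t) ⟨b, hbB⟩ = ∑ a : A, (if ha : a.1 ∈ A then t ⟨a.1, ha⟩ else 0) *
            ∏ i, (((a.1 i).choose (b i) : ℕ) : ℤ) := by
          rw [Matrix.mulVec, dotProduct]
          refine Finset.sum_congr rfl fun a _ => ?_
          rw [dif_pos a.2, mul_comm]
        rw [← h3]
        exact h1
      · refine Finset.sum_eq_zero fun a ha => ?_
        rw [prod_choose_eq_zero r a b ha hbb, mul_zero]

end Pool.Agent.Helper88.FE
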